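import Mathlib

/-!
Actions of commutative groups by continuous maps on compact spaces: orbit closures, minimal
points, the action of ultrafilters, minimal left ideals.
-/

set_option autoImplicit false

namespace Pool.Agent.R489.PI

open Filter Topology

/-- an action of the group `G` on `Z` by continuous maps -/
structure Act (G Z : Type*) [AddCommGroup G] [TopologicalSpace Z] where
  a : G → Z → Z
  cont : ∀ g, Continuous (a g)
  zero : ∀ z, a 0 z = z
  add : ∀ g h z, a (g + h) z = a g (a h z)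

namespace Act

variable {G Z W : Type*} [AddCommGroup G] [TopologicalSpace Z] [TopologicalSpace W]

/-- orbit closure -/
def oc (A : Act G Z) (z : Z) : Set Z := closure (Set.range fun g => A.a g z)

/-- minimal point -/
def MinPt (A : Act G Z) (z : Z) : Prop := ∀ w ∈ A.oc z, z ∈ A.oc w

/-- invariant set -/
def Inv (A : Act G Z) (s : Set Z) : Prop := ∀ g, ∀ z ∈ s, A.a g z ∈ s

variable (A : Act G Z) (B : Act G W)

theorem neg_a (g : G) (z : Z) : A.a (-g) (A.a g z) = z := by
  rw [← A.add, neg_add_cancel, A.zero]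

theorem a_neg (g : G) (z : Z) : A.a g (A.a (-g) z) = z := by
  rw [← A.add, add_neg_cancel, A.zero]

theorem oc_closed (z : Z) : IsClosed (A.oc z) := isClosed_closure

theorem orb_mem (g : G) (z : Z) : A.a g z ∈ A.oc z := subset_closure ⟨g, rfl⟩

theorem self_mem (z : Z) : z ∈ A.oc z := by
  have := A.orb_mem 0 z
  rwa [A.zero] at this

theorem oc_inv (z : Z) : A.Inv (A.oc z) := by
  intro g w hw
  have h1 : Set.MapsTo (A.a g) (Set.range fun g => A.a g z) (Set.range fun g => A.a g z) := by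
    rintro _ ⟨h, rfl⟩
    exact ⟨g + h, A.add g h z⟩
  exact h1.closure (A.cont g) hw

theorem oc_sub {s : Set Z} (hs : IsClosed s) (hi : A.Inv s) {z : Z} (hz : z ∈ s) :
    A.oc z ⊆ s := by
  apply closure_minimal _ hs
  rintro _ ⟨g, rfl⟩
  exact hi g z hz

theorem oc_mono {w z : Z} (h : w ∈ A.oc z) : A.oc w ⊆ A.oc z :=
  A.oc_sub (A.oc_closed z) (A.oc_inv z) h

theorem MinPt.eq {A : Act G Z} {w z : Z} (hz : A.MinPt z) (h : w ∈ A.oc z) : A.oc w = A.oc z :=
  Set.Subset.antisymm (A.oc_mono h) (A.oc_mono (hz w h))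

theorem MinPt.of_mem {A : Act G Z} {w z : Z} (hz : A.MinPt z) (h : w ∈ A.oc z) : A.MinPt w := by
  intro v hv
  rw [hz.eq h] at hv
  rw [hz.eq hv]
  exact h

/-- equivariance -/
def Equi (p : Z → W) : Prop := ∀ g z, p (A.a g z) = B.a g (p z)

variable {A B}

theorem map_oc_sub {p : Z → W} (hp : Continuous p) (he : A.Equi B p) (z : Z) :
    Set.MapsTo p (A.oc z) (B.oc (p z)) := by
  have h1 : Set.MapsTo p (Set.range fun g => A.a g z) (Set.range fun g => B.a g (p z)) := by
    rintro _ ⟨g, rfl⟩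
    exact ⟨g, (he g z).symm⟩
  exact h1.closure hp

theorem image_oc [CompactSpace Z] [T2Space W] {p : Z → W} (hp : Continuous p)
    (he : A.Equi B p) (z : Z) : p '' (A.oc z) = B.oc (p z) := by
  apply Set.Subset.antisymm
  · rintro _ ⟨w, hw, rfl⟩
    exact map_oc_sub hp he z hw
  · apply closure_minimal
    · rintro _ ⟨g, rfl⟩
      exact ⟨A.a g z, A.orb_mem g z, he g z⟩
    · exact ((A.oc_closed z).isCompact.image hp).isClosed

theorem MinPt.map [CompactSpace Z] [T2Space W] {p : Z → W} (hp : Continuous p)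
    (he : A.Equi B p) {z : Z} (hz : A.MinPt z) : B.MinPt (p z) := by
  intro w hw
  rw [← image_oc hp he z] at hw
  obtain ⟨v, hv, rfl⟩ := hw
  exact map_oc_sub hp he v (hz v hv)

end Act

/-! ### minimal left ideals -/

section Ideal

variable {E : Type*} [AddSemigroup E] [TopologicalSpace E]

/-- closed nonempty left ideals -/
def IsLI (L : Set E) : Prop := IsClosed L ∧ L.Nonempty ∧ ∀ x, ∀ y ∈ L, x + y ∈ L

/-- minimal ones -/
def IsMLI (L : Set E) : Prop := IsLI L ∧ ∀ y ∈ L, ∀ z ∈ L, ∃ x, z = x + y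

theorem exists_mli [CompactSpace E] [T2Space E] (hc : ∀ r : E, Continuous fun x => x + r)
    {K : Set E} (hK : IsLI K) : ∃ L ⊆ K, IsMLI L := by
  obtain ⟨L, hLK, hL⟩ := zorn_superset_nonempty {L : Set E | IsLI L} (by
    intro c hcS hchain hne
    refine ⟨⋂₀ c, ⟨isClosed_sInter fun s hs => (hcS hs).1, ?_, ?_⟩, fun s hs =>
      Set.sInter_subset_of_mem hs⟩
    · rw [Set.sInter_eq_iInter]
      have : Nonempty c := hne.to_subtype
      apply IsCompact.nonempty_iInter_of_directed_nonempty_isCompact_isClosed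
      · intro s t
        rcases hchain.total s.2 t.2 with h | h
        · exact ⟨s, subset_rfl, h⟩
        · exact ⟨t, h, subset_rfl⟩
      · intro s; exact (hcS s.2).2.1
      · intro s; exact (hcS s.2).1.isCompact
      · intro s; exact (hcS s.2).1
    · intro x y hy s hs
      exact (hcS hs).2.2 x y (hy s hs)) K hK
  refine ⟨L, hLK, hL.1, ?_⟩
  intro y hy z hz
  have h1 : IsLI ((fun x => x + y) '' Set.univ) := by
    refine ⟨(isCompact_univ.image (hc y)).isClosed, ⟨_, y, trivial, rfl⟩, ?_⟩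
    rintro x _ ⟨w, _, rfl⟩
    exact ⟨x + w, trivial, add_assoc x w y⟩
  have h2 : ((fun x => x + y) '' Set.univ) ⊆ L := by
    rintro _ ⟨w, _, rfl⟩
    exact hL.1.2.2 w y hy
  obtain ⟨x, _, hx⟩ := hL.2 h1 h2 hz
  exact ⟨x, hx.symm⟩

theorem IsMLI.idem [CompactSpace E] [T2Space E] (hc : ∀ r : E, Continuous fun x => x + r)
    {L : Set E} (hL : IsMLI L) : ∃ e ∈ L, e + e = e :=
  exists_idempotent_in_compact_add_subsemigroup hc L hL.1.2.1 hL.1.1.isCompact
    (fun x _ y hy => hL.1.2.2 x y hy)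

theorem IsMLI.absorb {L : Set E} (hL : IsMLI L) {p e : E} (hp : p ∈ L) (he : e ∈ L)
    (hee : e + e = e) : p + e = p := by
  obtain ⟨x, rfl⟩ := hL.2 e he p hp
  rw [add_assoc, hee]

end Ideal

/-! ### ultrafilters -/

attribute [local instance] Ultrafilter.add Ultrafilter.addSemigroup

section Ultra

variable {G Z : Type*} [AddCommGroup G] [TopologicalSpace Z]

/-- the limit of `g z` along the ultrafilter `p` -/
noncomputable def Act.lim (A : Act G Z) (p : Ultrafilter G) (z : Z) : Z :=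
  Ultrafilter.extend (fun g => A.a g z) p

variable [CompactSpace Z] [T2Space Z] (A : Act G Z)

theorem Act.lim_tendsto (p : Ultrafilter G) (z : Z) :
    Tendsto (fun g => A.a g z) p (𝓝 (A.lim p z)) :=
  ultrafilter_extend_eq_iff.1 rfl

theorem Act.lim_unique {p : Ultrafilter G} {z w : Z}
    (h : Tendsto (fun g => A.a g z) p (𝓝 w)) : A.lim p z = w :=
  ultrafilter_extend_eq_iff.2 h

theorem Act.lim_add (p q : Ultrafilter G) (z : Z) :
    A.lim (p + q) z = A.lim p (A.lim q z) := by
  apply A.lim_unique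
  rw [tendsto_nhds]
  intro U hU hz
  have h1 := (A.lim_tendsto p (A.lim q z)).eventually (hU.mem_nhds hz)
  show ∀ᶠ g in ((p + q : Ultrafilter G) : Filter G), A.a g z ∈ U
  rw [Ultrafilter.eventually_add]
  filter_upwards [h1] with g hg
  have h2 : Tendsto (fun h => A.a g (A.a h z)) q (𝓝 (A.a g (A.lim q z))) :=
    ((A.cont g).tendsto _).comp (A.lim_tendsto q z)
  filter_upwards [h2.eventually (hU.mem_nhds hg)] with h hh
  rw [A.add]
  exact hh

theorem Act.lim_mem (p : Ultrafilter G) (z : Z) : A.lim p z ∈ A.oc z :=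
  mem_closure_of_tendsto (A.lim_tendsto p z) (Eventually.of_forall fun g => ⟨g, rfl⟩)

theorem Act.exists_lim {z w : Z} (h : w ∈ A.oc z) : ∃ p, A.lim p z = w := by
  have h1 : IsClosed (Set.range fun p : Ultrafilter G => A.lim p z) :=
    (isCompact_range (continuous_ultrafilter_extend _)).isClosed
  have h2 : A.oc z ⊆ Set.range fun p : Ultrafilter G => A.lim p z := by
    apply closure_minimal _ h1
    rintro _ ⟨g, rfl⟩
    refine ⟨pure g, A.lim_unique ?_⟩
    exact tendsto_pure_nhds _ _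
  exact h2 h

theorem Act.minPt_lim {L : Set (Ultrafilter G)} (hL : IsMLI L) {p : Ultrafilter G}
    (hp : p ∈ L) (z : Z) : A.MinPt (A.lim p z) := by
  intro w hw
  obtain ⟨q, rfl⟩ := A.exists_lim hw
  rw [← A.lim_add]
  obtain ⟨r, hr⟩ := hL.2 (q + p) (hL.1.2.2 q p hp) p hp
  have := A.lim_mem r (A.lim (q + p) z)
  rw [← A.lim_add, ← hr] at this
  exact this

theorem exists_mli_ultra (G : Type*) [AddCommGroup G] {K : Set (Ultrafilter G)}
    (hK : IsLI K) : ∃ L ⊆ K, IsMLI L :=
  exists_mli Ultrafilter.continuous_add_left hK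

theorem isLI_univ (G : Type*) [AddCommGroup G] : IsLI (Set.univ : Set (Ultrafilter G)) :=
  ⟨isClosed_univ, ⟨pure 0, trivial⟩, fun _ _ _ => trivial⟩

/-- every closed invariant nonempty set contains a minimal point -/
theorem Act.exists_min {s : Set Z} (hs : IsClosed s) (hi : A.Inv s) (hne : s.Nonempty) :
    ∃ z ∈ s, A.MinPt z := by
  obtain ⟨z, hz⟩ := hne
  obtain ⟨L, _, hL⟩ := exists_mli_ultra G (isLI_univ G)
  obtain ⟨p, hp⟩ := hL.1.2.1
  exact ⟨A.lim p z, A.oc_sub hs hi hz (A.lim_mem p z), A.minPt_lim hL hp z⟩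

end Ultra

theorem map_add_ultra {G H : Type*} [AddCommGroup G] [AddCommGroup H] (f : G →+ H)
    (p q : Ultrafilter G) : (p + q).map f = p.map f + q.map f := by
  have h : ∀ (U : Ultrafilter G) (P : H → Prop),
      (∀ᶠ m in ((U.map f : Ultrafilter H) : Filter H), P m) ↔ ∀ᶠ m in (U : Filter G), P (f m) :=
    fun U P => Iff.rfl
  ext s
  show (∀ᶠ m in (((p + q).map f : Ultrafilter H) : Filter H), m ∈ s) ↔
    (∀ᶠ m in ((p.map f + q.map f : Ultrafilter H) : Filter H), m ∈ s)
  rw [h, Ultrafilter.eventually_add, Ultrafilter.eventually_add, h]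
  simp only [h, map_add]

end Pool.Agent.R489.PI
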