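import Pool.Agent.R489.PI.Tower

/-!
Translation to powers of explicit homeomorphisms; return times of minimal points.
-/

set_option autoImplicit false

namespace Pool.Agent.R489.PI

open Filter Topology

/-- powers are natural -/
theorem conj_zpow {Z W : Type} [TopologicalSpace Z] [TopologicalSpace W] {f : Z ≃ₜ Z}
    {g : W ≃ₜ W} {p : Z → W} (h : ∀ z, p (f z) = g (p z)) (n : ℤ) (z : Z) :
    p ((f ^ n) z) = (g ^ n) (p z) := by
  have h1 : ∀ z, p (f⁻¹ z) = g⁻¹ (p z) := by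
    intro z
    have h2 := h (f⁻¹ z)
    have h3 : f (f⁻¹ z) = z := by
      show (f * f⁻¹) z = z
      rw [mul_inv_cancel]; rfl
    rw [h3] at h2
    rw [h2]
    show p (f⁻¹ z) = (g⁻¹ * g) (p (f⁻¹ z))
    rw [inv_mul_cancel]; rfl
  induction n using Int.induction_on generalizing z with
  | zero => simp
  | succ n ih =>
    rw [zpow_add_one, zpow_add_one]
    show p ((f ^ (n : ℤ)) (f z)) = (g ^ (n : ℤ)) (g (p z))
    rw [ih, h]
  | pred n ih =>
    rw [zpow_sub_one, zpow_sub_one]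
    show p ((f ^ (-(n : ℤ))) (f⁻¹ z)) = (g ^ (-(n : ℤ))) (g⁻¹ (p z))
    rw [ih, h1]

/-- the action of `ℤ` by the powers of a homeomorphism -/
def hact {Z : Type} [TopologicalSpace Z] (f : Z ≃ₜ Z) : Act ℤ Z where
  a n x := (f ^ n) x
  cont n := (f ^ n).continuous
  zero x := by simp
  add m n x := by rw [zpow_add]; rfl

/-- return times of a minimal point are syndetic -/
theorem syndetic {Z : Type} [TopologicalSpace Z] [CompactSpace Z] {A : Act ℤ Z} {z : Z}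
    (hz : A.MinPt z) {V : Set Z} (hV : IsOpen V) (hzV : z ∈ V) :
    ∃ N : ℕ, ∀ k : ℤ, ∃ j : ℕ, j ≤ N ∧ A.a (k + j) z ∈ V := by
  obtain ⟨F, hF⟩ := (A.oc_closed z).isCompact.elim_finite_subcover (fun n : ℤ => (A.a n) ⁻¹' V)
    (fun n => hV.preimage (A.cont n)) (by
      intro w hw
      obtain ⟨v, hv, ⟨n, rfl⟩⟩ := mem_closure_iff.1 (hz w hw) V hV hzV
      exact Set.mem_iUnion.2 ⟨n, hv⟩)
  obtain ⟨M, hM⟩ : ∃ M : ℕ, ∀ n ∈ F, n.natAbs ≤ M :=
    ⟨F.sup (fun n => n.natAbs), fun n hn => Finset.le_sup (f := fun n : ℤ => n.natAbs) hn⟩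
  refine ⟨2 * M, fun k => ?_⟩
  obtain ⟨n, hn⟩ := Set.mem_iUnion.1 (hF (A.orb_mem (k + M) z))
  obtain ⟨hnF, hnV⟩ := Set.mem_iUnion.1 hn
  have hnM := hM n hnF
  refine ⟨(M + n).toNat, by omega, ?_⟩
  have h1 : A.a n (A.a (k + M) z) ∈ V := hnV
  rw [← A.add] at h1
  have e : k + ((M + n).toNat : ℤ) = n + (k + M) := by
    have : 0 ≤ (M : ℤ) + n := by omega
    rw [Int.toNat_of_nonneg this]; ring
  rw [e]
  exact h1

end Pool.Agent.R489.PI
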