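import Mathlib

/-!
Topological dynamical systems, proximal and equicontinuous extensions, PI systems.
-/

set_option autoImplicit false

namespace Pool.Agent.R489.PI

/-- a topological dynamical system: a compact metric space `X` with a homeomorphism `T` -/
structure Sys where
  X : Type
  [met : MetricSpace X]
  [cpt : CompactSpace X]
  T : X ≃ₜ X

attribute [instance] Sys.met Sys.cpt

/-- minimal: nonempty, and every orbit `{T ^ n x : n ∈ ℤ}` is dense -/
def Sys.IsMinimal (S : Sys) : Prop :=
  Nonempty S.X ∧ ∀ x : S.X, Dense (Set.range fun n : ℤ => (S.T ^ n) x)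

/-- `p` is a factor map from `A` onto `B` -/
structure IsFactorMap (A B : Sys) (p : A.X → B.X) : Prop where
  cont : Continuous p
  surj : Function.Surjective p
  equi : ∀ x, p (A.T x) = B.T (p x)

/-- `p` is proximal: `inf_n d (T ^ n x, T ^ n x') = 0` whenever `p x = p x'` -/
def IsProximal (A B : Sys) (p : A.X → B.X) : Prop :=
  ∀ x x', p x = p x' → ∀ ε > 0, ∃ n : ℤ, dist ((A.T ^ n) x) ((A.T ^ n) x') < ε

/-- `p` is an equicontinuous extension -/
def IsEquicont (A B : Sys) (p : A.X → B.X) : Prop :=
  ∀ ε > 0, ∃ δ > 0, ∀ x x', p x = p x' → dist x x' < δ →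
    ∀ n : ℤ, dist ((A.T ^ n) x) ((A.T ^ n) x') < ε

/-- A tower of minimal systems over a well-ordered index set: `p i j` is the factor map from
`Y i` to `Y j` for `j ≤ i`; each successor step is a proximal or an equicontinuous extension;
at a limit index the maps to the lower levels separate points, that is, `Y i` is the inverse
limit of the `Y j`, `j < i`. -/
structure IsTower (I : Type) [LinearOrder I] (Y : I → Sys)
    (p : ∀ i j, (Y i).X → (Y j).X) : Prop where
  minimal : ∀ i, (Y i).IsMinimal
  factor : ∀ i j, j ≤ i → IsFactorMap (Y i) (Y j) (p i j)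
  comp : ∀ i j k, k ≤ j → j ≤ i → ∀ x, p j k (p i j x) = p i k x
  step : ∀ i j, j ⋖ i → IsProximal (Y i) (Y j) (p i j) ∨ IsEquicont (Y i) (Y j) (p i j)
  limit : ∀ i, Order.IsSuccLimit i → ∀ x x', (∀ j < i, p i j x = p i j x') → x = x'

/-- `S` is strictly PI: it is (conjugate to) the top of such a tower whose bottom is a point -/
def StrictlyPI (S : Sys) : Prop :=
  ∃ (I : Type) (_ : LinearOrder I) (_ : WellFoundedLT I) (b t : I) (Y : I → Sys)
    (p : ∀ i j, (Y i).X → (Y j).X), (∀ i, b ≤ i ∧ i ≤ t) ∧ IsTower I Y p ∧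
    Subsingleton (Y b).X ∧ ∃ e : (Y t).X ≃ₜ S.X, ∀ x, e ((Y t).T x) = S.T (e x)

/-- `S` is a minimal PI system: a minimal system with a strictly PI proximal extension -/
def IsPI (S : Sys) : Prop :=
  S.IsMinimal ∧ ∃ (S' : Sys) (p : S'.X → S.X), S'.IsMinimal ∧ StrictlyPI S' ∧
    IsFactorMap S' S p ∧ IsProximal S' S p

end Pool.Agent.R489.PI
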