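import Pool.Agent.R489.PI.Act

/-!
Glasner's theorem: for a minimal system the orbit closure of the diagonal under
`T × T × ...` and `T ^ (a 1) × T ^ (a 2) × ...` is minimal.
-/

set_option autoImplicit false

namespace Pool.Agent.R489.PI

open Filter Topology

attribute [local instance] Ultrafilter.add Ultrafilter.addSemigroup

section

variable {X ι : Type*} [TopologicalSpace X]

/-- `(m, n) ↦ m + a n` -/
def hom (a : ℤ) : ℤ × ℤ →+ ℤ where
  toFun g := g.1 + a * g.2
  map_zero' := by simp
  map_add' g h := by simp only [Prod.fst_add, Prod.snd_add]; ring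

/-- `m ↦ (m, 0)` -/
def dia : ℤ →+ ℤ × ℤ where
  toFun m := (m, 0)
  map_zero' := rfl
  map_add' g h := by simp

/-- the action of `ℤ × ℤ` on `X ^ ι` -/
def pw (B : Act ℤ X) (a : ι → ℤ) : Act (ℤ × ℤ) (ι → X) where
  a g w := fun i => B.a (g.1 + a i * g.2) (w i)
  cont g := continuous_pi (fun i => (B.cont _).comp (continuous_apply i))
  zero w := by
    funext i
    simp [B.zero]
  add g h w := by
    funext i
    simp only [Prod.fst_add, Prod.snd_add]
    rw [← B.add]
    congr 1
    ring

theorem lim_pw [CompactSpace X] [T2Space X] (B : Act ℤ X) (a : ι → ℤ)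
    (p : Ultrafilter (ℤ × ℤ)) (w : ι → X) (i : ι) :
    (pw B a).lim p w i = B.lim (p.map (hom (a i))) (w i) := by
  symm
  apply B.lim_unique
  have h := (pw B a).lim_tendsto p w
  have h1 := (tendsto_pi_nhds.1 h) i
  exact h1

theorem glasner [Nonempty X] [CompactSpace X] [T2Space X] (B : Act ℤ X) (a : ι → ℤ) :
    ∃ x₀ : X, (pw B a).MinPt (fun _ => x₀) := by
  obtain ⟨L, _, hL⟩ := exists_mli_ultra ℤ (isLI_univ ℤ)
  obtain ⟨u, huL, huu⟩ := hL.idem Ultrafilter.continuous_add_left
  set U : Ultrafilter (ℤ × ℤ) := u.map dia with hU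
  have hUU : U + U = U := by rw [hU, ← map_add_ultra, huu]
  have hK : IsLI ((fun x => x + U) '' (Set.univ : Set (Ultrafilter (ℤ × ℤ)))) := by
    refine ⟨(isCompact_univ.image (Ultrafilter.continuous_add_left U)).isClosed,
      ⟨_, U, trivial, rfl⟩, ?_⟩
    rintro x _ ⟨w, _, rfl⟩
    exact ⟨x + w, trivial, add_assoc x w U⟩
  obtain ⟨M, hMK, hM⟩ := exists_mli_ultra (ℤ × ℤ) hK
  obtain ⟨v, hvM, hvv⟩ := hM.idem Ultrafilter.continuous_add_left
  obtain ⟨x, _, hxv⟩ := hMK hvM
  have hU' : ∀ i, U.map (hom (a i)) = u := by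
    intro i
    rw [hU, Ultrafilter.map_map]
    have : (hom (a i) ∘ dia : ℤ → ℤ) = id := by
      funext m; simp [hom, dia]
    rw [this, Ultrafilter.map_id]
  have he : ∀ i, (U + v).map (hom (a i)) = u := by
    intro i
    rw [map_add_ultra, hU' i]
    have h1 : v.map (hom (a i)) ∈ L := by
      rw [← hxv]
      simp only [map_add_ultra, hU' i]
      exact hL.1.2.2 _ _ huL
    have h2 : v.map (hom (a i)) + v.map (hom (a i)) = v.map (hom (a i)) := by
      rw [← map_add_ultra, hvv]
    exact hL.absorb huL h1 h2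
  have hmem : U + v ∈ M := hM.1.2.2 U v hvM
  obtain ⟨y⟩ := ‹Nonempty X›
  refine ⟨B.lim u y, ?_⟩
  have h := (pw B a).minPt_lim hM hmem (fun _ => y)
  have e : (pw B a).lim (U + v) (fun _ => y) = fun _ => B.lim u y := by
    funext i
    rw [lim_pw, he i]
  rwa [e] at h

/-- the closure of the orbit of the diagonal -/
def NN (B : Act ℤ X) (a : ι → ℤ) : Set (ι → X) :=
  closure (Set.range fun q : ℤ × X => (pw B a).a (0, q.1) (fun _ => q.2))

theorem NN_closed (B : Act ℤ X) (a : ι → ℤ) : IsClosed (NN B a) := isClosed_closure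

theorem const_mem (B : Act ℤ X) (a : ι → ℤ) (x : X) : (fun _ => x) ∈ NN B a := by
  apply subset_closure
  refine ⟨(0, x), ?_⟩
  exact (pw B a).zero _

theorem NN_inv (B : Act ℤ X) (a : ι → ℤ) : (pw B a).Inv (NN B a) := by
  intro g w hw
  have h1 : Set.MapsTo ((pw B a).a g)
      (Set.range fun q : ℤ × X => (pw B a).a (0, q.1) (fun _ => q.2))
      (Set.range fun q : ℤ × X => (pw B a).a (0, q.1) (fun _ => q.2)) := by
    rintro _ ⟨q, rfl⟩
    refine ⟨(g.2 + q.1, B.a g.1 q.2), ?_⟩
    funext i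
    simp only [pw]
    rw [← B.add, ← B.add]
    congr 1
    ring
  exact h1.closure ((pw B a).cont g) hw

theorem NN_min [Nonempty X] [CompactSpace X] [T2Space X] (B : Act ℤ X) (a : ι → ℤ)
    (hB : ∀ x, Dense (Set.range fun n : ℤ => B.a n x)) :
    ∀ w ∈ NN B a, (pw B a).oc w = NN B a := by
  obtain ⟨x₀, hx₀⟩ := glasner B a
  have h1 : (pw B a).oc (fun _ => x₀) = NN B a := by
    apply Set.Subset.antisymm
    · exact (pw B a).oc_sub (NN_closed B a) (NN_inv B a) (const_mem B a x₀)
    · apply closure_minimal _ ((pw B a).oc_closed _)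
      rintro _ ⟨q, rfl⟩
      apply (pw B a).oc_inv
      have hc : Continuous (fun x : X => (fun _ : ι => x)) := continuous_pi fun _ => continuous_id
      have h2 : Set.MapsTo (fun x : X => (fun _ : ι => x)) (Set.range fun n : ℤ => B.a n x₀)
          (Set.range fun g => (pw B a).a g (fun _ => x₀)) := by
        rintro _ ⟨n, rfl⟩
        refine ⟨(n, 0), ?_⟩
        funext i
        simp [pw]
      have h3 := h2.closure hc (hB x₀ q.2)
      exact h3
  intro w hw
  rw [← h1] at hw ⊢
  exact hx₀.eq hw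

end

end Pool.Agent.R489.PI
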