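import Pool.Agent.R489.PI.Glasner

/-!
The category arguments: lifting of comeager sets of minimal points.
-/

set_option autoImplicit false

namespace Pool.Agent.R489.PI

open Filter Topology

section

variable {G Z W : Type*} [AddCommGroup G] [TopologicalSpace Z] [TopologicalSpace W]

theorem semiopen [Countable G] [CompactSpace Z] [T2Space Z] [CompactSpace W] [T2Space W]
    [Nonempty W] {A : Act G Z} {B : Act G W} {p : Z → W} (hp : Continuous p)
    (hs : Function.Surjective p) (he : A.Equi B p) (hA : ∀ z, A.oc z = Set.univ) {U : Set Z}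
    (hU : IsOpen U) (hne : U.Nonempty) : (interior (p '' U)).Nonempty := by
  obtain ⟨z, hz⟩ := hne
  obtain ⟨t, ht, htc, htU⟩ := exists_mem_nhds_isClosed_subset (hU.mem_nhds hz)
  have hcov : (⋃ g : G, p '' {w | A.a g w ∈ t}) = Set.univ := by
    rw [Set.eq_univ_iff_forall]
    intro y
    obtain ⟨w, rfl⟩ := hs y
    have h1 : z ∈ A.oc w := by rw [hA]; trivial
    obtain ⟨v, hv1, ⟨g, rfl⟩⟩ := mem_closure_iff_nhds.1 h1 t ht
    exact Set.mem_iUnion.2 ⟨g, w, hv1, rfl⟩
  obtain ⟨g, O, hO⟩ := nonempty_interior_of_iUnion_of_closed (fun g : G =>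
    (((htc.preimage (A.cont g)).isCompact.image hp).isClosed :
      IsClosed (p '' {w | A.a g w ∈ t}))) hcov
  refine ⟨B.a g O, ?_⟩
  rw [mem_interior]
  refine ⟨(B.a (-g)) ⁻¹' interior (p '' {w | A.a g w ∈ t}), ?_,
    isOpen_interior.preimage (B.cont _), ?_⟩
  · intro y hy
    have h1 : B.a (-g) y ∈ p '' {w | A.a g w ∈ t} := interior_subset hy
    obtain ⟨w, hw, hwy⟩ := h1
    refine ⟨A.a g w, htU hw, ?_⟩
    rw [he, hwy, B.a_neg]
  · simp only [Set.mem_preimage, B.neg_a]
    exact hO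

theorem residual_preimage {p : Z → W} (hp : Continuous p)
    (hso : ∀ U : Set Z, IsOpen U → U.Nonempty → (interior (p '' U)).Nonempty) {s : Set W}
    (hs : s ∈ residual W) : p ⁻¹' s ∈ residual Z := by
  rw [mem_residual_iff] at hs ⊢
  obtain ⟨S, h1, h2, h3, h4⟩ := hs
  refine ⟨(fun t => p ⁻¹' t) '' S, ?_, ?_, h3.image _, ?_⟩
  · rintro _ ⟨t, ht, rfl⟩
    exact (h1 t ht).preimage hp
  · rintro _ ⟨t, ht, rfl⟩
    rw [dense_iff_inter_open]
    intro U hU hne
    obtain ⟨y, hy, hyt⟩ := (dense_iff_inter_open.1 (h2 t ht)) _ isOpen_interior (hso U hU hne)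
    obtain ⟨z, hz, rfl⟩ := interior_subset hy
    exact ⟨z, hz, hyt⟩
  · intro z hz
    apply h4
    rintro t ht
    exact hz _ ⟨t, ht, rfl⟩

theorem frontier_compl_dense {F : Set W} (hF : IsClosed F) : Dense (frontier F)ᶜ := by
  rw [← interior_eq_empty_iff_dense_compl]
  exact interior_frontier hF

theorem mem_interior_of_frontier {F : Set W} {y : W} (hy : y ∈ F) (hy' : y ∉ frontier F) :
    y ∈ interior F := by
  by_contra h
  exact hy' ⟨subset_closure hy, h⟩

/-- points over which a continuous map is open -/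
theorem exists_open_pt [CompactSpace Z] [T2Space Z] [SecondCountableTopology Z]
    [CompactSpace W] [T2Space W] [Nonempty W] {f : Z → W} (hf : Continuous f) :
    ∃ y, ∀ x, f x = y → ∀ U ∈ 𝓝 x, f '' U ∈ 𝓝 y := by
  have hb := TopologicalSpace.isBasis_countableBasis Z
  have hcl : ∀ B : Set Z, IsClosed (f '' closure B) := fun B =>
    (isClosed_closure.isCompact.image hf).isClosed
  have hd : Dense (⋂ B ∈ TopologicalSpace.countableBasis Z, (frontier (f '' closure B))ᶜ) := by
    apply dense_biInter_of_isOpen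
    · intro B _
      exact isClosed_frontier.isOpen_compl
    · exact TopologicalSpace.countable_countableBasis Z
    · intro B _
      exact frontier_compl_dense (hcl B)
  obtain ⟨y, hy⟩ := hd.nonempty
  refine ⟨y, ?_⟩
  rintro x rfl U hU
  obtain ⟨t, ht, htc, htU⟩ := exists_mem_nhds_isClosed_subset hU
  obtain ⟨B, hB, hxB, hBt⟩ := hb.mem_nhds_iff.1 ht
  have h1 : f x ∉ frontier (f '' closure B) := by
    have := Set.mem_iInter₂.1 hy B hB
    exact this
  have h2 : f x ∈ f '' closure B := ⟨x, subset_closure hxB, rfl⟩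
  have h3 := mem_interior_of_frontier h2 h1
  rw [mem_interior_iff_mem_nhds] at h3
  refine Filter.mem_of_superset h3 (Set.image_mono ?_)
  exact (closure_minimal hBt htc).trans htU

end

/-- the second generator -/
def tau {Z : Type*} [TopologicalSpace Z] (A : Act (ℤ × ℤ) Z) : Act ℤ Z where
  a n := A.a (0, n)
  cont n := A.cont _
  zero z := A.zero z
  add m n z := by rw [← A.add]; simp

/-- product action -/
def prd {G Z W : Type*} [AddCommGroup G] [TopologicalSpace Z] [TopologicalSpace W]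
    (A : Act G Z) (B : Act G W) : Act G (Z × W) where
  a g z := (A.a g z.1, B.a g z.2)
  cont g := ((A.cont g).comp continuous_fst).prodMk ((B.cont g).comp continuous_snd)
  zero z := by simp [A.zero, B.zero]
  add g h z := by simp [A.add, B.add]

theorem tau_comm {Z : Type*} [TopologicalSpace Z] (A : Act (ℤ × ℤ) Z) (g : ℤ × ℤ) :
    (tau A).Equi (tau A) (A.a g) := by
  intro n z
  show A.a g (A.a (0, n) z) = A.a (0, n) (A.a g z)
  rw [← A.add, ← A.add, add_comm]

theorem dense_min {Z : Type*} [TopologicalSpace Z] [CompactSpace Z] [T2Space Z] [Nonempty Z]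
    (A : Act (ℤ × ℤ) Z) (hA : ∀ z, A.oc z = Set.univ) : Dense {z | (tau A).MinPt z} := by
  obtain ⟨z, _, hz⟩ := (tau A).exists_min isClosed_univ (fun _ _ _ => trivial)
    (Set.univ_nonempty)
  have h1 : Dense (Set.range fun g => A.a g z) := by
    rw [dense_iff_closure_eq]; exact hA z
  apply h1.mono
  rintro _ ⟨g, rfl⟩
  exact hz.map (A.cont g) (tau_comm A g)

section Equicont

variable {Z W : Type*} [MetricSpace Z] [CompactSpace Z] [MetricSpace W] [CompactSpace W]

theorem equi_pt {A : Act ℤ Z} {B : Act ℤ W} {p : Z → W} (hp : Continuous p)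
    (he : A.Equi B p)
    (heq : ∀ ε > 0, ∃ δ > 0, ∀ z z', p z = p z' → dist z z' < δ →
      ∀ n, dist (A.a n z) (A.a n z') < ε) {w : Z} (hq : B.MinPt (p w)) : A.MinPt w := by
  obtain ⟨w₀, hw₀, hmin⟩ := A.exists_min (A.oc_closed w) (A.oc_inv w) ⟨w, A.self_mem w⟩
  have hpw : B.oc (p w₀) = B.oc (p w) := hq.eq (Act.map_oc_sub hp he w hw₀)
  have himg : p '' (A.oc w₀) = B.oc (p w) := by rw [Act.image_oc hp he, hpw]
  have : CompactSpace (A.oc w₀) := isCompact_iff_compactSpace.1 (A.oc_closed w₀).isCompact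
  have : CompactSpace (B.oc (p w)) := isCompact_iff_compactSpace.1 (B.oc_closed (p w)).isCompact
  have : Nonempty (B.oc (p w)) := ⟨⟨p w, B.self_mem _⟩⟩
  let f : A.oc w₀ → B.oc (p w) := fun z => ⟨p z.1, by rw [← himg]; exact ⟨z.1, z.2, rfl⟩⟩
  have hf : Continuous f := (hp.comp continuous_subtype_val).subtype_mk _
  obtain ⟨y, hy⟩ := exists_open_pt hf
  obtain ⟨x, hx, hxy⟩ : ∃ x ∈ A.oc w₀, p x = y.1 := by
    have hy1 : y.1 ∈ p '' (A.oc w₀) := by rw [himg]; exact y.2
    obtain ⟨x, hx, h⟩ := hy1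
    exact ⟨x, hx, h⟩
  have hxy' : f ⟨x, hx⟩ = y := Subtype.ext hxy
  suffices hw : w ∈ A.oc w₀ from hmin.of_mem hw
  have hcl : IsClosed (A.oc w₀) := A.oc_closed w₀
  rw [← hcl.closure_eq, Metric.mem_closure_iff]
  intro ε hε
  obtain ⟨δ₀, hδ₀, hδ⟩ := heq ε hε
  have h1 := hy ⟨x, hx⟩ hxy' (Metric.ball ⟨x, hx⟩ (δ₀ / 2)) (Metric.ball_mem_nhds _ (by linarith))
  rw [Metric.mem_nhds_iff] at h1
  obtain ⟨η, hη, hη2⟩ := h1
  have h2 : ∀ᶠ z in 𝓝 x, dist (p z) (p x) < η :=
    (hp.tendsto x).eventually (Metric.ball_mem_nhds _ hη)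
  have h3 : ∀ᶠ z in 𝓝 x, dist z x < δ₀ / 2 := Metric.ball_mem_nhds _ (by linarith)
  have hxw : x ∈ A.oc w := A.oc_mono hw₀ hx
  obtain ⟨z, hz, ⟨n, hn⟩⟩ := mem_closure_iff_nhds.1 hxw _ (h2.and h3)
  obtain ⟨hz1, hz2⟩ := hz
  simp only at hn
  have h4 : p z ∈ B.oc (p w) := by
    rw [← hn, he]
    exact B.orb_mem n (p w)
  have h5 : (⟨p z, h4⟩ : B.oc (p w)) ∈ Metric.ball y η := by
    rw [Metric.mem_ball, Subtype.dist_eq]
    simp only
    rw [← hxy]; exact hz1
  obtain ⟨z', hz', hz'2⟩ := hη2 h5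
  have h6 : p z'.1 = p z := congrArg Subtype.val hz'2
  have h7 : dist z z'.1 < δ₀ := by
    have h8 : dist z'.1 x < δ₀ / 2 := hz'
    calc dist z z'.1 ≤ dist z x + dist x z'.1 := dist_triangle _ _ _
      _ < δ₀ / 2 + δ₀ / 2 := by rw [dist_comm x]; linarith
      _ = δ₀ := by ring
  have h9 := hδ z z'.1 h6.symm h7 (-n)
  rw [← hn, A.neg_a] at h9
  exact ⟨_, A.oc_inv w₀ (-n) z'.1 z'.2, h9⟩

end Equicont

section Prox

variable {Z W : Type*} [TopologicalSpace Z] [CompactSpace Z] [T2Space Z]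
  [TopologicalSpace W] [CompactSpace W] [T2Space W]

omit [CompactSpace W] in
theorem uniq {A : Act ℤ Z} {B : Act ℤ W} {p : Z → W} (hp : Continuous p)
    (he : A.Equi B p) (hPM : ∀ z z', p z = p z' → (prd A A).MinPt (z, z') → z = z')
    {w₁ w₂ : Z} (h₁ : A.MinPt w₁) (hq : B.oc (p w₁) = B.oc (p w₂)) :
    w₁ ∈ A.oc w₂ := by
  have hne : ∃ b ∈ A.oc w₂, p b = p w₁ := by
    have : p w₁ ∈ B.oc (p w₂) := by rw [← hq]; exact B.self_mem _
    rw [← Act.image_oc hp he] at this
    obtain ⟨b, hb, h⟩ := this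
    exact ⟨b, hb, h⟩
  obtain ⟨b, hb, hbp⟩ := hne
  have hcl : IsClosed {z : Z × Z | z.1 ∈ A.oc w₁ ∧ z.2 ∈ A.oc w₂ ∧ p z.1 = p z.2} := by
    refine ((A.oc_closed w₁).preimage continuous_fst).inter
      (((A.oc_closed w₂).preimage continuous_snd).inter
      (isClosed_eq (hp.comp continuous_fst) (hp.comp continuous_snd)))
  have hinv : (prd A A).Inv {z : Z × Z | z.1 ∈ A.oc w₁ ∧ z.2 ∈ A.oc w₂ ∧ p z.1 = p z.2} := by
    rintro g z ⟨h1, h2, h3⟩
    refine ⟨A.oc_inv _ g _ h1, A.oc_inv _ g _ h2, ?_⟩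
    show p (A.a g z.1) = p (A.a g z.2)
    rw [he, he, h3]
  obtain ⟨⟨a, c⟩, ⟨h1, h2, h3⟩, hmin⟩ := (prd A A).exists_min hcl hinv
    ⟨(w₁, b), A.self_mem _, hb, hbp.symm⟩
  simp only at h1 h2 h3
  have hac := hPM a c h3 hmin
  subst hac
  exact A.oc_mono h2 (h₁ a h1)

/-- the complement of the orbit of an open set -/
def CV (A : Act ℤ Z) (V : Set Z) : Set Z := {z | ∀ n, A.a n z ∉ V}

omit [CompactSpace Z] [T2Space Z] in
theorem CV_closed (A : Act ℤ Z) {V : Set Z} (hV : IsOpen V) : IsClosed (CV A V) := by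
  have : CV A V = ⋂ n, (A.a n) ⁻¹' Vᶜ := by
    ext z; simp [CV]
  rw [this]
  exact isClosed_iInter fun n => hV.isClosed_compl.preimage (A.cont n)

omit [CompactSpace Z] [T2Space Z] in
theorem CV_inv (A : Act ℤ Z) (V : Set Z) : A.Inv (CV A V) := by
  intro g z hz n
  rw [← A.add]
  exact hz _

omit [CompactSpace Z] [T2Space Z] in
theorem CV_not (A : Act ℤ Z) {V : Set Z} {z : Z} (hz : z ∈ CV A V) : z ∉ V := by
  have := hz 0
  rwa [A.zero] at this

omit [CompactSpace Z] [T2Space Z] in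
theorem sub_CV (A : Act ℤ Z) {V s : Set Z} (hs : A.Inv s) (h : ∀ z ∈ s, z ∉ V) :
    s ⊆ CV A V := fun z hz n => h _ (hs n z hz)

theorem step_prox [SecondCountableTopology Z] [Nonempty Z] [Nonempty W]
    {A : Act (ℤ × ℤ) Z} {B : Act (ℤ × ℤ) W}
    {p : Z → W} (hp : Continuous p) (hs : Function.Surjective p) (he : A.Equi B p)
    (hA : ∀ z, A.oc z = Set.univ)
    (hPM : ∀ z z', p z = p z' → (prd (tau A) (tau A)).MinPt (z, z') → z = z')
    (hR : {w | (tau B).MinPt w} ∈ residual W) : {z | (tau A).MinPt z} ∈ residual Z := by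
  have he' : (tau A).Equi (tau B) p := fun n z => he (0, n) z
  have hb := TopologicalSpace.isBasis_countableBasis Z
  have hres : (⋂ V ∈ TopologicalSpace.countableBasis Z,
      (frontier (p '' (CV (tau A) V)))ᶜ) ∈ residual W := by
    rw [countable_bInter_mem (TopologicalSpace.countable_countableBasis Z)]
    intro V hV
    apply residual_of_dense_open isClosed_frontier.isOpen_compl
    apply frontier_compl_dense
    exact ((CV_closed (tau A) (hb.isOpen hV)).isCompact.image hp).isClosed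
  have h1 := residual_preimage hp (fun U hU hne => semiopen hp hs he hA hU hne)
    (Filter.inter_mem hR hres)
  refine Filter.mem_of_superset h1 ?_
  rintro w ⟨hw1, hw2⟩
  have hw1 : (tau B).MinPt (p w) := hw1
  obtain ⟨w₀, hw₀, hmin⟩ := (tau A).exists_min ((tau A).oc_closed w) ((tau A).oc_inv w)
    ⟨w, (tau A).self_mem w⟩
  show (tau A).MinPt w
  suffices hw : w ∈ (tau A).oc w₀ from hmin.of_mem hw
  by_contra hcon
  obtain ⟨V, hV, hwV, hVs⟩ := hb.exists_subset_of_mem_open
    (show w ∈ ((tau A).oc w₀)ᶜ from hcon) ((tau A).oc_closed w₀).isOpen_compl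
  have hsub : (tau A).oc w₀ ⊆ CV (tau A) V :=
    sub_CV _ ((tau A).oc_inv w₀) (fun z hz hzV => hVs hzV hz)
  have hq : p w ∈ p '' (CV (tau A) V) := by
    have h2 : (tau B).oc (p w₀) = (tau B).oc (p w) := hw1.eq (Act.map_oc_sub hp he' w hw₀)
    have h3 : p w ∈ p '' ((tau A).oc w₀) := by
      rw [Act.image_oc hp he', h2]; exact (tau B).self_mem _
    exact Set.image_mono hsub h3
  have hq2 : p w ∉ frontier (p '' (CV (tau A) V)) := Set.mem_iInter₂.1 hw2 V hV
  have hq3 := mem_interior_of_frontier hq hq2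
  have hopen : IsOpen (V ∩ p ⁻¹' (interior (p '' (CV (tau A) V)))) :=
    (hb.isOpen hV).inter (isOpen_interior.preimage hp)
  obtain ⟨w₁, ⟨hw₁V, hw₁G⟩, hw₁⟩ := (dense_min A hA).inter_open_nonempty _ hopen ⟨w, hwV, hq3⟩
  have hw₁ : (tau A).MinPt w₁ := hw₁
  have hmem : p w₁ ∈ p '' (CV (tau A) V) := interior_subset hw₁G
  obtain ⟨c, hc, hcp⟩ := hmem
  obtain ⟨c₁, hc₁, hc₁min⟩ := (tau A).exists_min ((tau A).oc_closed c) ((tau A).oc_inv c)
    ⟨c, (tau A).self_mem c⟩
  have hc₁V : (tau A).oc c₁ ⊆ CV (tau A) V :=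
    ((tau A).oc_mono hc₁).trans
      ((tau A).oc_sub (CV_closed _ (hb.isOpen hV)) (CV_inv _ V) hc)
  have hq1 : (tau B).MinPt (p w₁) := hw₁.map hp he'
  have hoc : (tau B).oc (p w₁) = (tau B).oc (p c₁) := by
    symm
    apply hq1.eq
    rw [← hcp]
    exact Act.map_oc_sub hp he' c hc₁
  have := uniq hp he' hPM hw₁ hoc
  exact CV_not _ (hc₁V this) hw₁V

end Prox

theorem lim_pt {Z : Type} [MetricSpace Z] [CompactSpace Z] (A : Act ℤ Z) {w : Z}
    (h : ∀ ε > 0, ∃ (W : Type) (_ : TopologicalSpace W) (_ : T2Space W) (B : Act ℤ W)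
      (p : Z → W), Continuous p ∧ A.Equi B p ∧ (∀ z z', p z = p z' → dist z z' < ε) ∧
      B.MinPt (p w)) : A.MinPt w := by
  intro w' hw'
  have hcl : IsClosed (A.oc w') := A.oc_closed w'
  rw [← hcl.closure_eq, Metric.mem_closure_iff]
  intro ε hε
  obtain ⟨W, _, _, B, p, hp, he, hd, hm⟩ := h ε hε
  have h1 : p w ∈ B.oc (p w') := hm _ (Act.map_oc_sub hp he w hw')
  rw [← Act.image_oc hp he] at h1
  obtain ⟨z, hz, hzp⟩ := h1
  exact ⟨z, hz, hd w z hzp.symm⟩

section Diag

variable {X Z : Type*} [TopologicalSpace X] [CompactSpace X] [MetricSpace Z] [CompactSpace Z]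

theorem step_diag [Nonempty Z] {B : Act ℤ X} {A : Act (ℤ × ℤ) Z}
    (hB : ∀ x, Dense (Set.range fun n : ℤ => B.a n x)) {δ : X → Z} (hδ : Continuous δ)
    (he : ∀ m x, δ (B.a m x) = A.a (m, 0) (δ x))
    (hcov : closure (Set.range fun q : ℤ × X => A.a (0, q.1) (δ q.2)) = Set.univ)
    (hR : {z | (tau A).MinPt z} ∈ residual Z) : {x | (tau A).MinPt (δ x)} ∈ residual X := by
  have hb := TopologicalSpace.isBasis_countableBasis Z
  let S : Set Z → Set Z := fun V =>
    {z | ∃ n, (tau A).a n z ∈ V} ∩ {z | ((tau A).oc z ∩ CV (tau A) V).Nonempty}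
  have hS1 : ∀ z, ¬ (tau A).MinPt z → ∃ V ∈ TopologicalSpace.countableBasis Z, z ∈ S V := by
    intro z hz
    unfold Act.MinPt at hz
    push Not at hz
    obtain ⟨w, hw, hzw⟩ := hz
    obtain ⟨V, hV, hzV, hVs⟩ := hb.exists_subset_of_mem_open
      (show z ∈ ((tau A).oc w)ᶜ from hzw) ((tau A).oc_closed w).isOpen_compl
    refine ⟨V, hV, ⟨0, by rw [(tau A).zero]; exact hzV⟩, w, hw, ?_⟩
    exact sub_CV _ ((tau A).oc_inv w) (fun v hv hvV => hVs hvV hv) ((tau A).self_mem w)
  have hS2 : ∀ V ∈ TopologicalSpace.countableBasis Z, ∀ z ∈ S V, ¬ (tau A).MinPt z := by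
    rintro V hV z ⟨⟨n, hn⟩, w, hw, hwC⟩ hz
    have h1 := hz w hw
    have h2 := (tau A).oc_sub (CV_closed _ (hb.isOpen hV)) (CV_inv _ V) hwC h1
    exact h2 n hn
  have hS3 : ∀ V ∈ TopologicalSpace.countableBasis Z, IsGδ (S V) := by
    intro V hV
    apply IsGδ.inter
    · apply IsOpen.isGδ
      have : {z | ∃ n, (tau A).a n z ∈ V} = ⋃ n, ((tau A).a n) ⁻¹' V := by
        ext z; simp
      rw [this]
      exact isOpen_iUnion fun n => (hb.isOpen hV).preimage ((tau A).cont n)
    · have : {z | ((tau A).oc z ∩ CV (tau A) V).Nonempty} =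
          ⋂ k : ℕ, ⋃ n : ℤ, ((tau A).a n) ⁻¹' (Metric.thickening (1 / ((k : ℝ) + 1))
            (CV (tau A) V)) := by
        ext z
        simp only [Set.mem_ofPred_eq, Set.mem_iInter, Set.mem_iUnion, Set.mem_preimage]
        constructor
        · rintro ⟨w, hw, hwC⟩ k
          have hk : (0 : ℝ) < 1 / ((k : ℝ) + 1) := by positivity
          obtain ⟨v, ⟨n, rfl⟩, hv⟩ := Metric.mem_closure_iff.1 hw _ hk
          refine ⟨n, ?_⟩
          rw [Metric.mem_thickening_iff]
          exact ⟨w, hwC, by rw [dist_comm]; exact hv⟩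
        · intro h
          by_contra hcon
          rw [Set.not_nonempty_iff_eq_empty] at hcon
          have hsub : CV (tau A) V ⊆ ((tau A).oc z)ᶜ := by
            intro w hw hw2
            have : w ∈ (tau A).oc z ∩ CV (tau A) V := ⟨hw2, hw⟩
            rw [hcon] at this
            exact this
          obtain ⟨r, hr, hrs⟩ := (CV_closed (tau A) (hb.isOpen hV)).isCompact.exists_thickening_subset_open
            ((tau A).oc_closed z).isOpen_compl hsub
          obtain ⟨k, hk⟩ := exists_nat_one_div_lt hr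
          obtain ⟨n, hn⟩ := h k
          exact hrs (Metric.thickening_mono hk.le _ hn) ((tau A).orb_mem n z)
      rw [this]
      exact IsGδ.iInter_of_isOpen fun k => isOpen_iUnion fun n =>
        Metric.isOpen_thickening.preimage ((tau A).cont n)
  have hS4 : ∀ V ∈ TopologicalSpace.countableBasis Z, Dense (closure (S V))ᶜ := by
    intro V hV
    have h1 : S V ∪ (closure (S V))ᶜ ∈ residual Z := by
      apply residual_of_dense_Gδ
      · exact (hS3 V hV).union isClosed_closure.isOpen_compl.isGδ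
      · rw [dense_iff_closure_eq, closure_union]
        apply Set.eq_univ_of_forall
        intro z
        by_cases hz : z ∈ closure (S V)
        · exact Or.inl hz
        · exact Or.inr (subset_closure hz)
    apply dense_of_mem_residual
    refine Filter.mem_of_superset (Filter.inter_mem h1 hR) ?_
    rintro z ⟨hz1 | hz1, hz2⟩
    · exact absurd hz2 (hS2 V hV z hz1)
    · exact hz1
  have hS5 : ∀ V, (tau A).Inv (closure (S V)) := by
    intro V m z hz
    have h1 : Set.MapsTo ((tau A).a m) (S V) (S V) := by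
      rintro w ⟨⟨n, hn⟩, v, hv, hvC⟩
      refine ⟨⟨n - m, ?_⟩, v, ?_, hvC⟩
      · rw [← (tau A).add, sub_add_cancel]; exact hn
      · have h2 : w ∈ (tau A).oc ((tau A).a m w) := by
          have := (tau A).orb_mem (-m) ((tau A).a m w)
          rwa [(tau A).neg_a] at this
        exact (tau A).oc_mono h2 hv
    exact h1.closure ((tau A).cont m) hz
  have hfin : (⋂ V ∈ TopologicalSpace.countableBasis Z, {x | δ x ∉ closure (S V)})
      ∈ residual X := by
    rw [countable_bInter_mem (TopologicalSpace.countable_countableBasis Z)]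
    intro V hV
    have hop : IsOpen {x | δ x ∉ closure (S V)} := by
      have : {x | δ x ∉ closure (S V)} = δ ⁻¹' (closure (S V))ᶜ := rfl
      rw [this]
      exact isClosed_closure.isOpen_compl.preimage hδ
    apply residual_of_dense_open hop
    rw [dense_iff_inter_open]
    intro U hU hUne
    by_contra hcon
    rw [Set.not_nonempty_iff_eq_empty] at hcon
    have hUS : ∀ x ∈ U, δ x ∈ closure (S V) := by
      intro x hx
      by_contra h
      have : x ∈ U ∩ {x | δ x ∉ closure (S V)} := ⟨hx, h⟩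
      rw [hcon] at this
      exact this
    obtain ⟨u, hu⟩ := hUne
    obtain ⟨F, hF⟩ := isCompact_univ.elim_finite_subcover (fun m : ℤ => (B.a m) ⁻¹' U)
      (fun m => hU.preimage (B.cont m)) (by
        intro x _
        obtain ⟨v, hv, ⟨n, rfl⟩⟩ := (hB x).inter_open_nonempty U hU ⟨u, hu⟩
        exact Set.mem_iUnion.2 ⟨n, hv⟩)
    have hcl : IsClosed (⋃ m ∈ F, (A.a (m, 0)) ⁻¹' closure (S V)) :=
      F.finite_toSet.isClosed_biUnion fun m _ => isClosed_closure.preimage (A.cont _)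
    have hall : (⋃ m ∈ F, (A.a (m, 0)) ⁻¹' closure (S V)) = Set.univ := by
      apply Set.eq_univ_of_univ_subset
      rw [← hcov]
      apply closure_minimal _ hcl
      rintro _ ⟨⟨n, x⟩, rfl⟩
      obtain ⟨m, hm⟩ := Set.mem_iUnion.1 (hF (Set.mem_univ x))
      obtain ⟨hmF, hmU⟩ := Set.mem_iUnion.1 hm
      refine Set.mem_iUnion₂.2 ⟨m, hmF, ?_⟩
      show A.a (m, 0) (A.a (0, n) (δ x)) ∈ closure (S V)
      have e : A.a (m, 0) (A.a (0, n) (δ x)) = (tau A).a n (δ (B.a m x)) := by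
        rw [he]
        show _ = A.a (0, n) (A.a (m, 0) (δ x))
        rw [← A.add, ← A.add, add_comm]
      rw [e]
      exact hS5 V n _ (hUS _ hmU)
    have hall' : (⋃ m : F, (A.a (m.1, 0)) ⁻¹' closure (S V)) = Set.univ := by
      rw [← hall]
      ext z
      simp
    obtain ⟨m, z, hz⟩ := nonempty_interior_of_iUnion_of_closed
      (fun m : F => isClosed_closure.preimage (A.cont (m.1, 0))) hall'
    have h1 : A.a (m.1, 0) z ∈ interior (closure (S V)) := by
      rw [mem_interior]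
      refine ⟨(A.a (-(m.1, 0))) ⁻¹' interior ((A.a (m.1, 0)) ⁻¹' closure (S V)), ?_,
        isOpen_interior.preimage (A.cont _), ?_⟩
      · intro y hy
        have hy1 : A.a (-(m.1, 0)) y ∈ interior ((A.a (m.1, 0)) ⁻¹' closure (S V)) := hy
        have h3 := interior_subset hy1
        have h2 : A.a (m.1, 0) (A.a (-(m.1, 0)) y) ∈ closure (S V) := h3
        rwa [A.a_neg] at h2
      · rw [Set.mem_preimage, A.neg_a]; exact hz
    have h2 := (interior_eq_empty_iff_dense_compl.2 (hS4 V hV))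
    rw [h2] at h1
    exact h1
  refine Filter.mem_of_superset hfin ?_
  intro x hx
  by_contra hcon
  obtain ⟨V, hV, hxV⟩ := hS1 (δ x) hcon
  exact (Set.mem_iInter₂.1 hx V hV) (subset_closure hxV)

end Diag

end Pool.Agent.R489.PI
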