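import Pool.Agent.R489.PI.Defs
import Pool.Agent.R489.PI.Steps

/-!
Transfinite induction along the tower.
-/

set_option autoImplicit false

namespace Pool.Agent.R489.PI

open Filter Topology

/-- restriction of an action to a closed invariant set -/
def Act.restrict {G Z : Type*} [AddCommGroup G] [TopologicalSpace Z] (A : Act G Z) (s : Set Z)
    (hi : A.Inv s) : Act G s where
  a g z := ⟨A.a g z.1, hi g z.1 z.2⟩
  cont g := ((A.cont g).comp continuous_subtype_val).subtype_mk _
  zero z := Subtype.ext (A.zero z.1)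
  add g h z := Subtype.ext (A.add g h z.1)

theorem restrict_oc {G Z : Type*} [AddCommGroup G] [TopologicalSpace Z] (A : Act G Z)
    (s : Set Z) (hi : A.Inv s) (z w : s) :
    w ∈ (A.restrict s hi).oc z ↔ w.1 ∈ A.oc z.1 := by
  unfold Act.oc
  rw [closure_subtype]
  have : ((↑) '' (Set.range fun g => (A.restrict s hi).a g z) : Set Z) =
      Set.range fun g => A.a g z.1 := by
    ext v
    constructor
    · rintro ⟨_, ⟨g, rfl⟩, rfl⟩; exact ⟨g, rfl⟩
    · rintro ⟨g, rfl⟩; exact ⟨_, ⟨g, rfl⟩, rfl⟩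
  rw [this]

/-- the action of `ℤ` on the space of a system -/
def Sys.act (S : Sys) : Act ℤ S.X where
  a n x := (S.T ^ n) x
  cont n := (S.T ^ n).continuous
  zero x := by simp
  add m n x := by rw [zpow_add]; rfl

theorem factor_zpow {A B : Sys} {p : A.X → B.X} (h : IsFactorMap A B p) (n : ℤ) (x : A.X) :
    p ((A.T ^ n) x) = (B.T ^ n) (p x) := by
  have h1 : ∀ x, p (A.T⁻¹ x) = B.T⁻¹ (p x) := by
    intro x
    have h2 := h.equi (A.T⁻¹ x)
    have h3 : A.T (A.T⁻¹ x) = x := by
      show (A.T * A.T⁻¹) x = x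
      rw [mul_inv_cancel]; rfl
    rw [h3] at h2
    rw [h2]
    show p (A.T⁻¹ x) = (B.T⁻¹ * B.T) (p (A.T⁻¹ x))
    rw [inv_mul_cancel]; rfl
  induction n using Int.induction_on generalizing x with
  | zero => simp
  | succ n ih =>
    rw [zpow_add_one, zpow_add_one]
    show p ((A.T ^ (n : ℤ)) (A.T x)) = (B.T ^ (n : ℤ)) (B.T (p x))
    rw [ih, h.equi]
  | pred n ih =>
    rw [zpow_sub_one, zpow_sub_one]
    show p ((A.T ^ (-(n : ℤ))) (A.T⁻¹ x)) = (B.T ^ (-(n : ℤ))) (B.T⁻¹ (p x))
    rw [ih, h1]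

/-- exponents `1, 2, ..., d` -/
def aa (d : ℕ) : Fin d → ℤ := fun i => (i.val : ℤ) + 1

/-- the space `N (X)` for a system -/
abbrev NS (S : Sys) (d : ℕ) : Type := NN S.act (aa d)

/-- the action on `N (X)` -/
def ra (S : Sys) (d : ℕ) : Act (ℤ × ℤ) (NS S d) :=
  (pw S.act (aa d)).restrict _ (NN_inv S.act (aa d))

instance (S : Sys) (d : ℕ) : CompactSpace (NS S d) :=
  isCompact_iff_compactSpace.1 (NN_closed S.act (aa d)).isCompact

theorem nonempty_NS {S : Sys} (h : Nonempty S.X) (d : ℕ) : Nonempty (NS S d) :=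
  h.elim fun x => ⟨⟨fun _ => x, const_mem S.act (aa d) x⟩⟩

theorem ra_min {S : Sys} (hS : S.IsMinimal) (d : ℕ) (z : NS S d) :
    (ra S d).oc z = Set.univ := by
  have : Nonempty S.X := hS.1
  apply Set.eq_univ_of_forall
  intro w
  unfold ra
  rw [restrict_oc, NN_min S.act (aa d) hS.2 z.1 z.2]
  exact w.2

/-- the property to be lifted -/
def RR (S : Sys) (d : ℕ) : Prop := {z | (tau (ra S d)).MinPt z} ∈ residual (NS S d)

section Factor

variable {A B : Sys} {p : A.X → B.X}

theorem pw_factor (h : IsFactorMap A B p) (d : ℕ) (g : ℤ × ℤ) (w : Fin d → A.X) :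
    (fun i => p ((pw A.act (aa d)).a g w i)) = (pw B.act (aa d)).a g (fun i => p (w i)) := by
  funext i
  exact factor_zpow h _ _

theorem maps_NN (h : IsFactorMap A B p) (d : ℕ) {w : Fin d → A.X}
    (hw : w ∈ NN A.act (aa d)) : (fun i => p (w i)) ∈ NN B.act (aa d) := by
  have hc : Continuous (fun w : Fin d → A.X => fun i => p (w i)) :=
    continuous_pi fun i => h.cont.comp (continuous_apply i)
  have h1 : Set.MapsTo (fun w : Fin d → A.X => fun i => p (w i))
      (Set.range fun q : ℤ × A.X => (pw A.act (aa d)).a (0, q.1) (fun _ => q.2))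
      (Set.range fun q : ℤ × B.X => (pw B.act (aa d)).a (0, q.1) (fun _ => q.2)) := by
    rintro _ ⟨q, rfl⟩
    refine ⟨(q.1, p q.2), ?_⟩
    exact (pw_factor h d (0, q.1) (fun _ => q.2)).symm
  exact h1.closure hc hw

/-- the induced map -/
def ind (h : IsFactorMap A B p) (d : ℕ) : NS A d → NS B d :=
  fun w => ⟨fun i => p (w.1 i), maps_NN h d w.2⟩

theorem ind_cont (h : IsFactorMap A B p) (d : ℕ) : Continuous (ind h d) := by
  apply Continuous.subtype_mk
  exact continuous_pi fun i => h.cont.comp ((continuous_apply i).comp continuous_subtype_val)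

theorem ind_equi (h : IsFactorMap A B p) (d : ℕ) : (ra A d).Equi (ra B d) (ind h d) := by
  intro g z
  apply Subtype.ext
  exact pw_factor h d g z.1

theorem ind_surj (h : IsFactorMap A B p) (d : ℕ) : Function.Surjective (ind h d) := by
  rw [← Set.range_eq_univ]
  have hcl : IsClosed (Set.range (ind h d)) := (isCompact_range (ind_cont h d)).isClosed
  have hcl2 : IsClosed ((↑) '' (Set.range (ind h d)) : Set (Fin d → B.X)) :=
    (NN_closed B.act (aa d)).isClosedEmbedding_subtypeVal.isClosedMap _ hcl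
  have h1 : NN B.act (aa d) ⊆ ((↑) '' (Set.range (ind h d)) : Set (Fin d → B.X)) := by
    apply closure_minimal _ hcl2
    rintro _ ⟨q, rfl⟩
    obtain ⟨x, hx⟩ := h.surj q.2
    refine ⟨ind h d ((ra A d).a (0, q.1) ⟨fun _ => x, const_mem A.act (aa d) x⟩), ⟨_, rfl⟩, ?_⟩
    rw [ind_equi h d]
    show (pw B.act (aa d)).a (0, q.1) (fun _ => p x) = _
    rw [hx]
  apply Set.eq_univ_of_forall
  intro z
  obtain ⟨w, hw, hwz⟩ := h1 z.2
  rw [← Subtype.ext hwz]
  exact hw

theorem rr_equi (h : IsFactorMap A B p) (hA : A.IsMinimal) (hB : B.IsMinimal)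
    (he : IsEquicont A B p) (d : ℕ) (hR : RR B d) : RR A d := by
  have : Nonempty (NS B d) := nonempty_NS hB.1 d
  have h1 := residual_preimage (ind_cont h d) (fun U hU hne =>
    semiopen (ind_cont h d) (ind_surj h d) (ind_equi h d) (ra_min hA d) hU hne) hR
  refine Filter.mem_of_superset h1 ?_
  intro z hz
  refine equi_pt (B := tau (ra B d)) (ind_cont h d) (fun n z => ind_equi h d (0, n) z) ?_ hz
  intro ε hε
  obtain ⟨δ, hδ, hδ2⟩ := he ε hε
  refine ⟨δ, hδ, ?_⟩
  intro z z' hzz hd n
  rw [Subtype.dist_eq, dist_pi_lt_iff hε]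
  intro i
  have h3 : p (z.1 i) = p (z'.1 i) := congrFun (congrArg Subtype.val hzz) i
  have h4 : dist (z.1 i) (z'.1 i) < δ := by
    rw [Subtype.dist_eq] at hd
    exact lt_of_le_of_lt (dist_le_pi_dist z.1 z'.1 i) hd
  exact hδ2 _ _ h3 h4 _

theorem prox_pow (S : Sys) {a : ℤ} (ha : a ≠ 0) {x x' : S.X}
    (h : ∀ ε > 0, ∃ n : ℤ, dist ((S.T ^ n) x) ((S.T ^ n) x') < ε) :
    ∀ ε > 0, ∃ n : ℤ, dist ((S.T ^ (a * n)) x) ((S.T ^ (a * n)) x') < ε := by
  intro ε hε
  have hF : Continuous (fun y : S.X => fun r : Fin a.natAbs => (S.T ^ (-(r.val : ℤ))) y) :=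
    continuous_pi fun r => (S.T ^ (-(r.val : ℤ))).continuous
  have hU := CompactSpace.uniformContinuous_of_continuous hF
  rw [Metric.uniformContinuous_iff] at hU
  obtain ⟨δ, hδ, hδ2⟩ := hU ε hε
  obtain ⟨n, hn⟩ := h δ hδ
  have h1 := hδ2 hn
  rw [dist_pi_lt_iff hε] at h1
  have hr0 : 0 ≤ n % a := Int.emod_nonneg n ha
  have hr1 : n % a < a.natAbs := by
    rw [Int.natCast_natAbs]; exact Int.emod_lt_abs n ha
  have h2 := h1 ⟨(n % a).toNat, by omega⟩
  simp only [Int.toNat_of_nonneg hr0] at h2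
  refine ⟨n / a, ?_⟩
  have e : ∀ y : S.X, (S.T ^ (-(n % a))) ((S.T ^ n) y) = (S.T ^ (a * (n / a))) y := by
    intro y
    show (S.T ^ (-(n % a)) * S.T ^ n) y = _
    rw [← zpow_add]
    congr 2
    have := Int.emod_add_mul_ediv n a
    linarith
  rw [e, e] at h2
  exact h2

theorem rr_prox (h : IsFactorMap A B p) (hA : A.IsMinimal) (hB : B.IsMinimal)
    (he : IsProximal A B p) (d : ℕ) (hR : RR B d) : RR A d := by
  have : Nonempty (NS B d) := nonempty_NS hB.1 d
  have : Nonempty (NS A d) := nonempty_NS hA.1 d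
  refine step_prox (ind_cont h d) (ind_surj h d) (ind_equi h d) (ra_min hA d) ?_ hR
  intro z z' hzz hmin
  apply Subtype.ext
  funext i
  have h3 : p (z.1 i) = p (z'.1 i) := congrFun (congrArg Subtype.val hzz) i
  -- the action on pairs of coordinates
  let E : Act ℤ (A.X × A.X) :=
    { a := fun n y => ((A.T ^ (aa d i * n)) y.1, (A.T ^ (aa d i * n)) y.2)
      cont := fun n => ((A.T ^ (aa d i * n)).continuous.comp continuous_fst).prodMk
        ((A.T ^ (aa d i * n)).continuous.comp continuous_snd)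
      zero := fun y => by simp
      add := fun m n y => by
        rw [mul_add, zpow_add]; rfl }
  have hE : (prd (tau (ra A d)) (tau (ra A d))).Equi E (fun y => (y.1.1 i, y.2.1 i)) := by
    intro n y
    apply Prod.ext
    · show (A.T ^ (0 + aa d i * n)) (y.1.1 i) = (A.T ^ (aa d i * n)) (y.1.1 i)
      rw [zero_add]
    · show (A.T ^ (0 + aa d i * n)) (y.2.1 i) = (A.T ^ (aa d i * n)) (y.2.1 i)
      rw [zero_add]
  have hEc : Continuous (fun y : NS A d × NS A d => (y.1.1 i, y.2.1 i)) :=
    ((continuous_apply i).comp (continuous_subtype_val.comp continuous_fst)).prodMk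
      ((continuous_apply i).comp (continuous_subtype_val.comp continuous_snd))
  have hm : E.MinPt (z.1 i, z'.1 i) := hmin.map hEc hE
  have ha : aa d i ≠ 0 := by
    have : (0 : ℤ) ≤ (i.val : ℤ) := Int.natCast_nonneg _
    unfold aa; omega
  have hprox := prox_pow A ha (he _ _ h3)
  obtain ⟨v, hv, hvm⟩ := (E.oc_closed (z.1 i, z'.1 i)).isCompact.exists_isMinOn
    ⟨_, E.self_mem _⟩ (continuous_dist.continuousOn (s := E.oc (z.1 i, z'.1 i)))
  have hv0 : dist v.1 v.2 = 0 := by
    apply le_antisymm _ dist_nonneg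
    apply le_of_forall_pos_lt_add
    intro ε hε
    obtain ⟨n, hn⟩ := hprox ε hε
    have h4 := hvm (E.orb_mem n (z.1 i, z'.1 i))
    rw [zero_add]
    exact lt_of_le_of_lt h4 hn
  have hv1 : v.1 = v.2 := dist_eq_zero.1 hv0
  have hback := hm v hv
  have hsub : E.oc v ⊆ {y | y.1 = y.2} := by
    apply E.oc_sub (isClosed_eq continuous_fst continuous_snd)
    · intro n y hy
      have hy : y.1 = y.2 := hy
      show (A.T ^ (aa d i * n)) y.1 = (A.T ^ (aa d i * n)) y.2
      rw [hy]
    · exact hv1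
  exact hsub hback

end Factor

theorem exists_level {I : Type} [LinearOrder I] {Y : I → Sys}
    {p : ∀ i j, (Y i).X → (Y j).X} (hT : IsTower I Y p) {i : I} (hi : Order.IsSuccLimit i)
    {ε : ℝ} (hε : 0 < ε) : ∃ j < i, ∀ x x', p i j x = p i j x' → dist x x' < ε := by
  by_contra hcon
  push Not at hcon
  have hne : Nonempty (Set.Iio i) := by
    obtain ⟨j, hj⟩ := not_isMin_iff.1 hi.1
    exact ⟨⟨j, hj⟩⟩
  have h1 : (⋂ j : Set.Iio i, {y : (Y i).X × (Y i).X | p i j.1 y.1 = p i j.1 y.2 ∧
      ε ≤ dist y.1 y.2}).Nonempty := by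
    have hcl : ∀ j : Set.Iio i, IsClosed {y : (Y i).X × (Y i).X |
        p i j.1 y.1 = p i j.1 y.2 ∧ ε ≤ dist y.1 y.2} := by
      intro j
      have hc := (hT.factor i j.1 (le_of_lt j.2)).cont
      exact (isClosed_eq (hc.comp continuous_fst) (hc.comp continuous_snd)).inter
        (isClosed_le continuous_const continuous_dist)
    apply IsCompact.nonempty_iInter_of_directed_nonempty_isCompact_isClosed
    · have key : ∀ j j' : Set.Iio i, j.1 ≤ j'.1 →
          {y : (Y i).X × (Y i).X | p i j'.1 y.1 = p i j'.1 y.2 ∧ ε ≤ dist y.1 y.2} ⊆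
          {y : (Y i).X × (Y i).X | p i j.1 y.1 = p i j.1 y.2 ∧ ε ≤ dist y.1 y.2} := by
        rintro j j' hjj y ⟨hy1, hy2⟩
        refine ⟨?_, hy2⟩
        rw [← hT.comp i j'.1 j.1 hjj (le_of_lt j'.2), ← hT.comp i j'.1 j.1 hjj (le_of_lt j'.2),
          hy1]
      intro j j'
      rcases le_total j.1 j'.1 with h | h
      · exact ⟨j', key _ _ h, subset_rfl⟩
      · exact ⟨j, subset_rfl, key _ _ h⟩
    · intro j
      obtain ⟨x, x', h2, h3⟩ := hcon j.1 j.2
      exact ⟨(x, x'), h2, h3⟩
    · intro j; exact (hcl j).isCompact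
    · exact hcl
  obtain ⟨y, hy⟩ := h1
  have hy' := Set.mem_iInter.1 hy
  have h2 := hT.limit i hi y.1 y.2 (fun j hj => (hy' ⟨j, hj⟩).1)
  have h3 := (hy' hne.some).2
  rw [h2, dist_self] at h3
  linarith

theorem rr_tower {I : Type} [LinearOrder I] [WellFoundedLT I] {Y : I → Sys}
    {p : ∀ i j, (Y i).X → (Y j).X} (hT : IsTower I Y p) {b : I} (hb : ∀ i, b ≤ i)
    (hs : Subsingleton (Y b).X) (d : ℕ) : ∀ i, RR (Y i) d := by
  intro i
  induction i using WellFoundedLT.induction with
  | ind i ih =>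
    by_cases hlim : Order.IsSuccLimit i
    · have hlev : ∀ n : ℕ, ∃ j < i, ∀ x x', p i j x = p i j x' →
          dist x x' < 1 / ((n : ℝ) + 1) := fun n => exists_level hT hlim (by positivity)
      choose jn hjn hjd using hlev
      have hmem : ∀ n : ℕ, (ind (hT.factor i (jn n) (hjn n).le) d) ⁻¹'
          {z | (tau (ra (Y (jn n)) d)).MinPt z} ∈ residual (NS (Y i) d) := by
        intro n
        have hf := hT.factor i (jn n) (hjn n).le
        have : Nonempty (NS (Y (jn n)) d) := nonempty_NS (hT.minimal _).1 d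
        exact residual_preimage (ind_cont hf d) (fun U hU hne =>
          semiopen (ind_cont hf d) (ind_surj hf d) (ind_equi hf d)
            (ra_min (hT.minimal i) d) hU hne) (ih (jn n) (hjn n))
      refine Filter.mem_of_superset (countable_iInter_mem.2 hmem) ?_
      intro z hz
      rw [Set.mem_iInter] at hz
      apply lim_pt
      intro ε hε
      obtain ⟨n, hn⟩ := exists_nat_one_div_lt hε
      have hf := hT.factor i (jn n) (hjn n).le
      refine ⟨NS (Y (jn n)) d, inferInstance, inferInstance, tau (ra (Y (jn n)) d), ind hf d,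
        ind_cont hf d, fun n z => ind_equi hf d (0, n) z, ?_, hz n⟩
      intro w w' hww
      rw [Subtype.dist_eq, dist_pi_lt_iff hε]
      intro k
      have h3 : p i (jn n) (w.1 k) = p i (jn n) (w'.1 k) := congrFun (congrArg Subtype.val hww) k
      exact (hjd n _ _ h3).trans hn
    · rw [Order.isSuccLimit_iff, not_and_or, not_not] at hlim
      rcases hlim with hmin | hpre
      · have : i = b := le_antisymm (hmin (hb i)) (hb i)
        subst this
        have hsub : ∀ z w : NS (Y i) d, z = w := by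
          intro z w
          apply Subtype.ext
          funext k
          exact hs.elim _ _
        apply Filter.mem_of_superset Filter.univ_mem
        intro z _ w hw
        rw [hsub z w]
        exact (tau (ra (Y i) d)).self_mem w
      · rw [Order.not_isSuccPrelimit_iff] at hpre
        obtain ⟨j, hj⟩ := hpre
        have hf := hT.factor i j hj.lt.le
        rcases hT.step i j hj with h | h
        · exact rr_prox hf (hT.minimal i) (hT.minimal j) h d (ih j hj.lt)
        · exact rr_equi hf (hT.minimal i) (hT.minimal j) h d (ih j hj.lt)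

/-- `x` is minimal for `T × T ^ 2 × ... × T ^ d` -/
def MM (S : Sys) (d : ℕ) (x : S.X) : Prop := (tau (pw S.act (aa d))).MinPt (fun _ => x)

theorem mm_factor {A B : Sys} {p : A.X → B.X} (h : IsFactorMap A B p) {d : ℕ} {x : A.X}
    (hx : MM A d x) : MM B d (p x) := by
  have hc : Continuous (fun w : Fin d → A.X => fun i => p (w i)) :=
    continuous_pi fun i => h.cont.comp (continuous_apply i)
  exact hx.map hc (fun n w => pw_factor h d (0, n) w)

theorem mm_of_rr {S : Sys} (hS : S.IsMinimal) (hR : ∀ d, RR S d) : ∃ x, ∀ d, MM S d x := by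
  have : Nonempty S.X := hS.1
  have h1 : ∀ d, {x | MM S d x} ∈ residual S.X := by
    intro d
    have : Nonempty (NS S d) := nonempty_NS hS.1 d
    have hδ : Continuous (fun x : S.X => (⟨fun _ => x, const_mem S.act (aa d) x⟩ : NS S d)) :=
      Continuous.subtype_mk (continuous_pi fun _ => continuous_id) _
    have h2 := step_diag (A := ra S d) (B := S.act) hS.2 hδ (by
      intro m x
      apply Subtype.ext
      funext i
      show (S.T ^ m) x = (S.T ^ (m + aa d i * 0)) x
      rw [mul_zero, add_zero]) (by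
      apply Set.eq_univ_of_forall
      intro z
      rw [closure_subtype]
      have : ((↑) '' (Set.range fun q : ℤ × S.X => (ra S d).a (0, q.1)
          (⟨fun _ => q.2, const_mem S.act (aa d) q.2⟩ : NS S d)) : Set (Fin d → S.X)) =
          Set.range fun q : ℤ × S.X => (pw S.act (aa d)).a (0, q.1) (fun _ => q.2) := by
        ext v
        constructor
        · rintro ⟨_, ⟨q, rfl⟩, rfl⟩; exact ⟨q, rfl⟩
        · rintro ⟨q, rfl⟩; exact ⟨_, ⟨q, rfl⟩, rfl⟩
      rw [this]
      exact z.2) (hR d)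
    refine Filter.mem_of_superset h2 ?_
    intro x hx
    have hx : (tau (ra S d)).MinPt ⟨fun _ => x, const_mem S.act (aa d) x⟩ := hx
    exact hx.map (B := tau (pw S.act (aa d))) continuous_subtype_val (fun n z => rfl)
  have h3 := dense_of_mem_residual (countable_iInter_mem.2 h1)
  obtain ⟨x, hx⟩ := h3.nonempty
  exact ⟨x, fun d => Set.mem_iInter.1 hx d⟩

/-- every minimal PI system has a multiply minimal point -/
theorem main {S : Sys} (h : IsPI S) : ∃ x : S.X, ∀ d, MM S d x := by
  obtain ⟨_, S', q, _, ⟨I, _, _, b, t, Y, p, hbt, hT, hs, e, he⟩, hq, _⟩ := h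
  obtain ⟨x, hx⟩ := mm_of_rr (hT.minimal t)
    (fun d => rr_tower hT (fun i => (hbt i).1) hs d t)
  have hfe : IsFactorMap (Y t) S' e := ⟨e.continuous, e.surjective, he⟩
  exact ⟨q (e x), fun d => mm_factor hq (mm_factor hfe (hx d))⟩

end Pool.Agent.R489.PI
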